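import Pool.Agent.H58.FN.Targets
import Pool.Agent.H58.FL.AsmD
import Pool.Agent.H58.FL.FinalD

/-!
# Row EX3: divisibility below `rad 3` and the exact values (helper73)
-/

set_option autoImplicit false

open Topology

namespace Pool.Agent.H73.FN

open Pool.Agent.H59 Pool.Agent.H48.FR Pool.Agent.H58.FL Pool.Agent.H30.FA Pool.Agent.H58.FM
  Pool.Agent.H58.FN

theorem ex3_div (hGE3 : T_GE3) (hCO3 : T_CO3) (hRD3 : T_RD3) (n : ℕ) (ε : ℝ) (hε : 0 < ε)
    (hn : 1 ≤ n) (hl : ε < rad 3) (N : ℤ) (hN : KillsN N (2 * n) (kc (CPn n) ε hε)) (m : ℕ)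
    (hm : Odd m) (hmn : m ∣ n) : (m : ℤ) ∣ N := by
  obtain ⟨-, hr6, hk3, -, hex⟩ := hRD3
  obtain ⟨κ, h1, h2, h3⟩ := hex ε hl
  have h0 : 0 < κ := by
    have : (0 : ℝ) < 263 / 1000 := by norm_num
    linarith
  exact hCO3 κ h0 h2 (hGE3 κ h1) n ε hε hn (hl.trans hr6) h3 N hN m hm hmn

theorem ex3_nonempty (n : ℕ) (hn1 : 1 ≤ n) :
    {ε : ℝ | ∃ hε : 0 < ε, Kills (2 * n) (kc (CPn n) ε hε)}.Nonempty := by
  have h2 : Module.finrank ℝ ℂ = 2 := Complex.finrank_real_complex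
  have hdim : Module.finrank ℝ ℂ * n < Nat.multichoose (Module.finrank ℝ ℂ) (2 * n + 1) := by
    rw [h2, Nat.multichoose_two]
    omega
  have hp : rad n < Real.pi / 6 := rad_lt_top hn1
  have hpp := Real.pi_pos
  have h0 : 0 < Real.pi / 6 := by positivity
  have hd0 : 2 * n ≠ 0 := by omega
  have hb : Bounds (PP ℂ n) (2 * n) (Real.pi / 6) :=
    bounds_of_nullhomotopic hd0 h0 (nullhomotopic (𝕜 := ℂ) hn1 hn1 hdim h0 hp)
  obtain ⟨h0', hk⟩ := hb
  exact ⟨Real.pi / 6, h0', hk⟩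

theorem ex3_low (hGE3 : T_GE3) (hCO3 : T_CO3) (hRD3 : T_RD3) (n : ℕ) (hn : 1 ≤ n)
    (hpow : ¬ ∃ a : ℕ, n = 2 ^ a) : rad 3 ≤ FillR (CPn n) (2 * n) := by
  obtain ⟨a, m, hm, hnm⟩ := Nat.exists_eq_two_pow_mul_odd (n := n) (by omega)
  have hm1 : m ≠ 1 := by
    rintro rfl
    exact hpow ⟨a, by rw [hnm, mul_one]⟩
  have hm0 : m ≠ 0 := by
    rintro rfl
    simp at hm
  refine le_csInf (ex3_nonempty n hn) ?_
  rintro ε ⟨hε, h⟩
  by_contra hlt
  have h3 : (m : ℤ) ∣ 1 := ex3_div hGE3 hCO3 hRD3 n ε hε hn (not_le.1 hlt) 1 (by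
    unfold KillsN
    rw [one_smul]
    exact h) m hm ⟨2 ^ a, by rw [hnm, mul_comm]⟩
  have h4 : (m : ℤ) ≤ 1 := Int.le_of_dvd (by norm_num) h3
  omega

theorem ex3_up (n : ℕ) (hn : 1 ≤ n) (h : ∀ p : ℕ, p.Prime → p ∣ n → p ^ n.factorization p ≤ 3) :
    FillR (CPn n) (2 * n) ≤ rad 3 :=
  Pool.Agent.H58.FL.fillR_le Pool.Agent.H58.FL.A.aFN2 n 3 hn (by norm_num) h

theorem ex3_not3 : ¬ ∃ a : ℕ, 3 = 2 ^ a := by
  rintro ⟨a, ha⟩
  rcases a with _ | a
  · norm_num at ha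
  · rw [pow_succ] at ha
    omega

theorem ex3_not6 : ¬ ∃ a : ℕ, 6 = 2 ^ a := by
  rintro ⟨a, ha⟩
  rcases a with _ | _ | a
  · norm_num at ha
  · norm_num at ha
  · rw [pow_succ, pow_succ] at ha
    omega

theorem pf_EX3 (hGE3 : T_GE3) (hCO3 : T_CO3) (hRD3 : T_RD3) : T_EX3 := by
  refine ⟨fun n ε hε hn hl N hN m hm hmn => ex3_div hGE3 hCO3 hRD3 n ε hε hn hl N hN m hm hmn,
    fun n hn hpow => ex3_low hGE3 hCO3 hRD3 n hn hpow, ?_, ?_⟩
  · apply le_antisymm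
    · apply ex3_up 3 (by norm_num)
      intro p hp hp3
      have h1 : p = 3 := (Nat.prime_dvd_prime_iff_eq hp Nat.prime_three).mp hp3
      rw [h1, Nat.Prime.factorization_self Nat.prime_three]
      norm_num
    · exact ex3_low hGE3 hCO3 hRD3 3 (by norm_num) ex3_not3
  · apply le_antisymm
    · apply ex3_up 6 (by norm_num)
      intro p hp hp6
      have h6 : (6 : ℕ) = 2 * 3 := by norm_num
      have hf : (6 : ℕ).factorization = (2 : ℕ).factorization + (3 : ℕ).factorization := by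
        rw [h6, Nat.factorization_mul (by norm_num) (by norm_num)]
      have h1 : p = 2 ∨ p = 3 := by
        rw [h6] at hp6
        rcases (Nat.Prime.dvd_mul hp).mp hp6 with h | h
        · exact Or.inl ((Nat.prime_dvd_prime_iff_eq hp Nat.prime_two).mp h)
        · exact Or.inr ((Nat.prime_dvd_prime_iff_eq hp Nat.prime_three).mp h)
      rcases h1 with h1 | h1
      · rw [h1, hf, Finsupp.add_apply, Nat.Prime.factorization_self Nat.prime_two,
          Nat.factorization_eq_zero_of_not_dvd (by norm_num)]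
        norm_num
      · rw [h1, hf, Finsupp.add_apply, Nat.Prime.factorization_self Nat.prime_three,
          Nat.factorization_eq_zero_of_not_dvd (by norm_num)]
        norm_num
    · exact ex3_low hGE3 hCO3 hRD3 6 (by norm_num) ex3_not6

end Pool.Agent.H73.FN
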